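import Pool.Agent.H50.ELT.Cheap

/-!
# Erdos-Lovasz Tihany conjecture: graphs of large fractional chromatic number

If `q` is a fractional clique of `G` with total weight more than `a + b - 2` and `G` contains no clique
with `a + b - 1` vertices, then `G` contains disjoint subgraphs of chromatic numbers `a` and `b`.
-/

namespace Pool.Agent.H69.ELT

open SimpleGraph Finset Pool.Agent.H50.ELT

variable {V : Type} [Fintype V] [DecidableEq V]

/-- The weight of a `k`-colourable set. -/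
theorem weight_le (G : SimpleGraph V) (q : V → ℝ) (U : Finset V) (k : ℕ) (t : ℝ)
    (hI : ∀ I ⊆ U, G.IsIndepSet (I : Set V) → ∑ v ∈ I, q v ≤ t)
    (hc : (G.induce (U : Set V)).Colorable k) : ∑ v ∈ U, q v ≤ k * t := by
  obtain ⟨ψ⟩ := hc
  let f : V → Option (Fin k) := fun v => if h : v ∈ U then some (ψ ⟨v, h⟩) else none
  have h1 : ∑ v ∈ U, q v = ∑ c : Option (Fin k), ∑ v ∈ U with f v = c, q v :=
    (Finset.sum_fiberwise U f q).symm
  rw [h1, Fintype.sum_option]
  have h2 : ∑ v ∈ U with f v = none, q v = 0 := by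
    apply Finset.sum_eq_zero
    intro v hv
    rw [Finset.mem_filter] at hv
    simp [f, hv.1] at hv
  rw [h2, zero_add]
  have h3 : ∀ c : Fin k, ∑ v ∈ U with f v = some c, q v ≤ t := by
    intro c
    apply hI _ (Finset.filter_subset _ _)
    intro u hu v hv _ hadj
    rw [Finset.mem_coe, Finset.mem_filter] at hu hv
    have hu2 := hu.2
    have hv2 := hv.2
    simp only [f, hu.1, hv.1, dite_true, Option.some.injEq] at hu2 hv2
    exact ψ.valid (v := ⟨u, hu.1⟩) (w := ⟨v, hv.1⟩) (by simpa using hadj) (by rw [hu2, hv2])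
  calc ∑ c : Fin k, ∑ v ∈ U with f v = some c, q v ≤ ∑ _c : Fin k, t :=
        Finset.sum_le_sum fun c _ => h3 c
    _ = k * t := by simp

/-- Removing a clique which is completely joined to the rest. -/
theorem colorable_join (G : SimpleGraph V) (K U : Finset V) (j m : ℕ) (hK : G.IsNClique j K)
    (ha : ∀ v ∈ K, ∀ u ∈ U, G.Adj v u)
    (hc : (G.induce ((K ∪ U : Finset V) : Set V)).Colorable m) :
    (G.induce (U : Set V)).Colorable (m - j) := by
  obtain ⟨ψ⟩ := hc
  let ι : K → Fin m := fun v => ψ ⟨v.1, by simp [v.2]⟩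
  have hι : Function.Injective ι := by
    intro u v huv
    by_contra hne
    have hadj : G.Adj u v := hK.isClique u.2 v.2 (fun h => hne (Subtype.ext h))
    exact ψ.valid (v := ⟨u.1, by simp [u.2]⟩) (w := ⟨v.1, by simp [v.2]⟩) (by simpa using hadj) huv
  let S : Finset (Fin m) := Finset.univ.image ι
  have hS : S.card = j := by
    rw [Finset.card_image_of_injective _ hι, Finset.card_univ, Fintype.card_coe, hK.card_eq]
  have hmem : ∀ u (hu : u ∈ U), ψ ⟨u, by simp [hu]⟩ ∉ S := by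
    intro u hu hmem
    rw [Finset.mem_image] at hmem
    obtain ⟨v, -, hv⟩ := hmem
    have hadj := ha v.1 v.2 u hu
    exact ψ.valid (v := ⟨v.1, by simp [v.2]⟩) (w := ⟨u, by simp [hu]⟩) (by simpa using hadj) hv
  let C : (G.induce (U : Set V)).Coloring {c : Fin m // c ∉ S} :=
    Coloring.mk (fun u => ⟨ψ ⟨u.1, by simp [Finset.mem_coe.1 u.2]⟩, hmem u.1 u.2⟩) (by
      intro u v huv heq
      have h := congrArg Subtype.val heq
      exact ψ.valid (v := ⟨u.1, by simp [Finset.mem_coe.1 u.2]⟩)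
        (w := ⟨v.1, by simp [Finset.mem_coe.1 v.2]⟩) (by simpa using huv) h)
  have h := C.colorable
  have hcard : Fintype.card {c : Fin m // c ∉ S} = m - j := by
    rw [Fintype.card_subtype_compl, Fintype.card_fin, Fintype.card_coe, hS]
  rwa [hcard] at h

/-- Redistributing one colour class over a clique. -/
theorem colorable_of_class (G : SimpleGraph V) (D : Finset V) (n b : ℕ) (hD : D.card = b)
    (ψ : (G.induce ((Dᶜ : Finset V) : Set V)).Coloring (Fin (n + 1))) (c0 : Fin (n + 1))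
    (h : ∀ x (hx : x ∈ (Dᶜ : Finset V)), ψ ⟨x, hx⟩ = c0 → ∃ d ∈ D, ¬ G.Adj x d) :
    G.Colorable (n + b) := by
  have key : ∀ u : V, ∃ x : {c : Fin (n + 1) // c ≠ c0} ⊕ D,
      (∀ hu : u ∈ D, x = Sum.inr ⟨u, hu⟩) ∧
      (∀ hu : u ∈ (Dᶜ : Finset V), ∀ hne : ψ ⟨u, hu⟩ ≠ c0, x = Sum.inl ⟨ψ ⟨u, hu⟩, hne⟩) ∧
      (∀ hu : u ∈ (Dᶜ : Finset V), ψ ⟨u, hu⟩ = c0 → ∃ d : D, x = Sum.inr d ∧ ¬ G.Adj u d) := by
    intro u
    by_cases hu : u ∈ D
    · refine ⟨Sum.inr ⟨u, hu⟩, fun _ => rfl, fun h' => ?_, fun h' => ?_⟩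
      · exact absurd hu (Finset.mem_compl.1 h')
      · exact absurd hu (Finset.mem_compl.1 h')
    · have hu' : u ∈ (Dᶜ : Finset V) := Finset.mem_compl.2 hu
      by_cases hne : ψ ⟨u, hu'⟩ = c0
      · obtain ⟨d, hd, hd'⟩ := h u hu' hne
        exact ⟨Sum.inr ⟨d, hd⟩, fun h' => absurd h' hu, fun _ h2 => absurd hne h2,
          fun _ _ => ⟨⟨d, hd⟩, rfl, hd'⟩⟩
      · exact ⟨Sum.inl ⟨ψ ⟨u, hu'⟩, hne⟩, fun h' => absurd h' hu, fun _ _ => rfl,
          fun _ h2 => absurd h2 hne⟩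
  choose f hf1 hf2 hf3 using key
  have aux : ∀ u v : V, G.Adj u v → ∀ hu : u ∈ (Dᶜ : Finset V), ψ ⟨u, hu⟩ = c0 → f u ≠ f v := by
    intro u v huv hu hcu heq
    obtain ⟨d, hd1, hd2⟩ := hf3 u hu hcu
    by_cases hv : v ∈ D
    · rw [hd1, hf1 v hv] at heq
      have := Sum.inr_injective heq
      rw [this] at hd2
      exact hd2 huv
    · have hv' : v ∈ (Dᶜ : Finset V) := Finset.mem_compl.2 hv
      by_cases hcv : ψ ⟨v, hv'⟩ = c0
      · exact ψ.valid (v := ⟨u, hu⟩) (w := ⟨v, hv'⟩) (by simpa using huv) (by rw [hcu, hcv])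
      · rw [hd1, hf2 v hv' hcv] at heq
        exact Sum.inr_ne_inl heq
  have hcol : ∀ u v : V, G.Adj u v → f u ≠ f v := by
    intro u v huv
    by_cases hu : u ∈ D
    · by_cases hv : v ∈ D
      · rw [hf1 u hu, hf1 v hv]
        intro heq
        exact huv.ne (congrArg Subtype.val (Sum.inr_injective heq))
      · have hv' : v ∈ (Dᶜ : Finset V) := Finset.mem_compl.2 hv
        by_cases hcv : ψ ⟨v, hv'⟩ = c0
        · exact (aux v u huv.symm hv' hcv).symm
        · rw [hf1 u hu, hf2 v hv' hcv]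
          exact Sum.inr_ne_inl
    · have hu' : u ∈ (Dᶜ : Finset V) := Finset.mem_compl.2 hu
      by_cases hcu : ψ ⟨u, hu'⟩ = c0
      · exact aux u v huv hu' hcu
      · by_cases hv : v ∈ D
        · rw [hf1 v hv, hf2 u hu' hcu]
          exact Sum.inl_ne_inr
        · have hv' : v ∈ (Dᶜ : Finset V) := Finset.mem_compl.2 hv
          by_cases hcv : ψ ⟨v, hv'⟩ = c0
          · exact (aux v u huv.symm hv' hcv).symm
          · rw [hf2 v hv' hcv, hf2 u hu' hcu]
            intro heq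
            have h3 := Sum.inl_injective heq
            have h4 : ψ ⟨u, hu'⟩ = ψ ⟨v, hv'⟩ := congrArg Subtype.val h3
            exact ψ.valid (v := ⟨u, hu'⟩) (w := ⟨v, hv'⟩) (by simpa using huv) h4
  have C : G.Coloring ({c : Fin (n + 1) // c ≠ c0} ⊕ D) :=
    Coloring.mk f (fun {u v} h => hcol u v h)
  have hcard : Fintype.card ({c : Fin (n + 1) // c ≠ c0} ⊕ D) = n + b := by
    simp [Fintype.card_subtype_compl, hD]
  have := C.colorable
  rwa [hcard] at this

end Pool.Agent.H69.ELT
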