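import Pool.Agent.H69.ELT.Frac

/-!
# Erdos-Lovasz Tihany conjecture: graphs of large fractional chromatic number, main part
-/

namespace Pool.Agent.H69.ELT

open SimpleGraph Finset Pool.Agent.H50.ELT

variable {V : Type} [Fintype V] [DecidableEq V]

/-- The situation of a counterexample. -/
structure Bad (G : SimpleGraph V) (q : V → ℝ) (a b : ℕ) : Prop where
  ha : 2 ≤ a
  hab : a ≤ b
  nonneg : ∀ v, 0 ≤ q v
  ind : ∀ I : Finset V, G.IsIndepSet (I : Set V) → ∑ v ∈ I, q v ≤ 1
  big : (a : ℝ) + b - 2 < ∑ v, q v
  nosplit : ¬ Split G a b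

theorem Bad.col_compl {G : SimpleGraph V} {q : V → ℝ} {a b : ℕ} (h : Bad G q a b) (U : Finset V)
    (hU : ¬ (G.induce (U : Set V)).Colorable (b - 1)) :
    (G.induce ((Uᶜ : Finset V) : Set V)).Colorable (a - 1) := by
  by_contra hc
  apply h.nosplit
  have := h.ha
  have := h.hab
  refine split_of G _ _ a b (by omega) (by omega) ?_ hc hU
  rw [Finset.disjoint_coe]
  exact disjoint_compl_left

theorem Bad.col_compl' {G : SimpleGraph V} {q : V → ℝ} {a b : ℕ} (h : Bad G q a b) (U : Finset V)
    (hU : ¬ (G.induce (U : Set V)).Colorable (a - 1)) :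
    (G.induce ((Uᶜ : Finset V) : Set V)).Colorable (b - 1) := by
  by_contra hc
  apply h.nosplit
  have := h.ha
  have := h.hab
  refine split_of G _ _ a b (by omega) (by omega) ?_ hU hc
  rw [Finset.disjoint_coe]
  exact disjoint_compl_right

theorem Bad.wb {G : SimpleGraph V} {q : V → ℝ} {a b : ℕ} (h : Bad G q a b) (U : Finset V)
    (hU : ∑ v ∈ U, q v < ∑ v, q v - (a - 1)) : (G.induce (U : Set V)).Colorable (b - 1) := by
  by_contra hc
  have h1 := weight_le G q Uᶜ (a - 1) 1 (fun I _ hI => h.ind I hI) (h.col_compl U hc)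
  have h2 := Finset.sum_add_sum_compl U q
  have h3 : ((a - 1 : ℕ) : ℝ) = a - 1 := by
    have := h.ha
    rw [Nat.cast_sub (by omega), Nat.cast_one]
  rw [h3, mul_one] at h1
  linarith

theorem Bad.wa {G : SimpleGraph V} {q : V → ℝ} {a b : ℕ} (h : Bad G q a b) (U : Finset V)
    (hU : ∑ v ∈ U, q v < ∑ v, q v - (b - 1)) : (G.induce (U : Set V)).Colorable (a - 1) := by
  by_contra hc
  have h1 := weight_le G q Uᶜ (b - 1) 1 (fun I _ hI => h.ind I hI) (h.col_compl' U hc)
  have h2 := Finset.sum_add_sum_compl U q
  have h3 : ((b - 1 : ℕ) : ℝ) = b - 1 := by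
    have := h.ha
    have := h.hab
    rw [Nat.cast_sub (by omega), Nat.cast_one]
  rw [h3, mul_one] at h1
  linarith

theorem Bad.le_one {G : SimpleGraph V} {q : V → ℝ} {a b : ℕ} (h : Bad G q a b) (v : V) :
    q v ≤ 1 := by
  have := h.ind {v} (by
    rw [Finset.coe_singleton]
    exact Set.pairwise_singleton _ _)
  simpa using this

theorem indep_insert {G : SimpleGraph V} {v : V} {I : Finset V} (hI : G.IsIndepSet (I : Set V))
    (h : ∀ x ∈ I, ¬ G.Adj v x) : G.IsIndepSet ((insert v I : Finset V) : Set V) := by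
  intro x hx y hy hne hadj
  rw [Finset.mem_coe, Finset.mem_insert] at hx hy
  rcases hx with rfl | hx
  · rcases hy with rfl | hy
    · exact hne rfl
    · exact h y hy hadj
  · rcases hy with rfl | hy
    · exact h x hx hadj.symm
    · exact hI hx hy hne hadj

open Classical in
/-- the common neighbourhood -/
noncomputable def com (G : SimpleGraph V) (K : Finset V) : Finset V :=
  Finset.univ.filter fun w => ∀ v ∈ K, G.Adj v w

theorem mem_com {G : SimpleGraph V} {K : Finset V} {w : V} :
    w ∈ com G K ↔ ∀ v ∈ K, G.Adj v w := by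
  simp [com]

theorem disj_com (G : SimpleGraph V) (K : Finset V) : Disjoint K (com G K) := by
  rw [Finset.disjoint_left]
  intro v hv hv'
  exact (mem_com.1 hv' v hv).ne rfl

theorem Bad.greedy {G : SimpleGraph V} {q : V → ℝ} {a b : ℕ} (h : Bad G q a b) :
    ∀ j ≤ b, ∃ K : Finset V, G.IsNClique j K ∧ ∑ v ∈ K, (1 - q v) ≤ 1 ∧
      ∑ v ∈ (K ∪ com G K)ᶜ, q v ≤ (a - 1) * ∑ v ∈ K, (1 - q v) := by
  have ha2 : (2 : ℝ) ≤ a := by exact_mod_cast h.ha
  have hab : (a : ℝ) ≤ b := by exact_mod_cast h.hab
  intro j
  induction j with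
  | zero =>
    intro _
    refine ⟨∅, by simp [isNClique_iff], by simp, ?_⟩
    have : com G (∅ : Finset V) = Finset.univ := by
      ext w
      simp [mem_com]
    simp [this]
  | succ j ih =>
    intro hj
    obtain ⟨K, hK, hg1, hB⟩ := ih (by omega)
    have hjb : (j : ℝ) + 1 ≤ b := by exact_mod_cast hj
    set g := ∑ v ∈ K, (1 - q v) with hg
    have hsK : ∑ v ∈ K, q v = j - g := by
      rw [hg, Finset.sum_sub_distrib]
      simp [hK.card_eq]
    have htot : ∑ v, q v = ∑ v ∈ K, q v + ∑ v ∈ com G K, q v + ∑ v ∈ (K ∪ com G K)ᶜ, q v := by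
      rw [← Finset.sum_add_sum_compl (K ∪ com G K) q, Finset.sum_union (disj_com G K)]
    set X := ∑ v, q v with hX
    have hbig := h.big
    -- the greedy step is possible
    have h1 : ∃ w ∈ com G K, g + (X - (a + b - 2)) ≤ q w := by
      by_contra hcon
      push Not at hcon
      have hcl : ∀ A' : Finset V, A' ⊆ com G K → ∑ v ∈ A', q v ≤ (b : ℝ) - 1 - j := by
        intro A'
        induction A' using Finset.induction_on with
        | empty =>
          intro _
          simp only [Finset.sum_empty]
          linarith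
        | insert w A' hw ihA =>
          intro hsub
          have hw1 : w ∈ com G K := hsub (Finset.mem_insert_self _ _)
          have hA1 : A' ⊆ com G K := fun x hx => hsub (Finset.mem_insert_of_mem hx)
          have h2 := ihA hA1
          have h3 := hcon w hw1
          have h4 : Disjoint K (insert w A') := (disj_com G K).mono_right hsub
          have h5 : ∑ v ∈ K ∪ insert w A', q v < X - (a - 1) := by
            rw [Finset.sum_union h4, Finset.sum_insert hw, hsK]
            linarith
          have h6 := h.wb _ h5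
          have h7 := colorable_join G K (insert w A') j (b - 1) hK
            (fun v hv u hu => mem_com.1 (hsub hu) v hv) h6
          have h8 := weight_le G q (insert w A') (b - 1 - j) 1 (fun I _ hI => h.ind I hI) h7
          have h9 : ((b - 1 - j : ℕ) : ℝ) = b - 1 - j := by
            rw [Nat.cast_sub (by omega), Nat.cast_sub (by omega), Nat.cast_one]
          rw [h9, mul_one] at h8
          exact h8
      have h2 := hcl _ (Finset.Subset.refl _)
      have h3 : (a - 2 : ℝ) * g ≤ (a - 2) * 1 :=
        mul_le_mul_of_nonneg_left hg1 (by linarith)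
      linarith
    obtain ⟨w, hw, hwq⟩ := h1
    obtain ⟨v, hv, hmax⟩ := Finset.exists_max_image (com G K) q ⟨w, hw⟩
    have hvq : g + (X - (a + b - 2)) ≤ q v := hwq.trans (hmax w hw)
    have hvK : v ∉ K := fun hvK => Finset.disjoint_left.1 (disj_com G K) hvK hv
    have hsum : ∑ u ∈ insert v K, (1 - q u) = (1 - q v) + g := by
      rw [Finset.sum_insert hvK]
    refine ⟨insert v K, hK.insert (fun u hu => (mem_com.1 hv u hu).symm), ?_, ?_⟩
    · rw [hsum]
      linarith
    · rw [hsum]
      classical
      let U := (com G K).filter fun u => u ≠ v ∧ ¬ G.Adj v u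
      have hsub : (insert v K ∪ com G (insert v K))ᶜ ⊆ (K ∪ com G K)ᶜ ∪ U := by
        intro u hu
        rw [Finset.mem_compl, Finset.mem_union, not_or, Finset.mem_insert, not_or] at hu
        obtain ⟨⟨hu1, hu2⟩, hu3⟩ := hu
        rw [Finset.mem_union]
        by_cases hu4 : u ∈ com G K
        · right
          rw [Finset.mem_filter]
          refine ⟨hu4, hu1, fun hadj => hu3 ?_⟩
          rw [mem_com]
          intro x hx
          rw [Finset.mem_insert] at hx
          rcases hx with rfl | hx
          · exact hadj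
          · exact mem_com.1 hu4 x hx
        · left
          rw [Finset.mem_compl, Finset.mem_union, not_or]
          exact ⟨hu2, hu4⟩
      have hdis : Disjoint (K ∪ com G K)ᶜ U := by
        rw [Finset.disjoint_left]
        intro u hu1 hu2
        rw [Finset.mem_compl, Finset.mem_union, not_or] at hu1
        exact hu1.2 (Finset.mem_filter.1 hu2).1
      have hUb : ∀ U' : Finset V, U' ⊆ U → ∑ u ∈ U', q u ≤ (a - 1) * (1 - q v) := by
        have hv1 := h.le_one v
        have hv0 := h.nonneg v
        intro U'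
        induction U' using Finset.induction_on with
        | empty =>
          intro _
          simp only [Finset.sum_empty]
          exact mul_nonneg (by linarith) (by linarith)
        | insert u U' hu ihU =>
          intro hsubU
          have h2 := ihU (fun x hx => hsubU (Finset.mem_insert_of_mem hx))
          have hu1 := Finset.mem_filter.1 (hsubU (Finset.mem_insert_self _ _))
          have h3 := hmax u hu1.1
          have h4 : ∑ x ∈ insert u U', q x < X - (b - 1) := by
            rw [Finset.sum_insert hu]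
            have h5 : 0 ≤ (a - 2 : ℝ) * q v := mul_nonneg (by linarith) hv0
            linarith
          have h5 := h.wa _ h4
          have h6 := weight_le G q (insert u U') (a - 1) (1 - q v) (fun I hIU hI => by
            have hvI : v ∉ I := by
              intro hvI
              exact (Finset.mem_filter.1 (hsubU (hIU hvI))).2.1 rfl
            have h7 := h.ind (insert v I)
              (indep_insert hI fun x hx => (Finset.mem_filter.1 (hsubU (hIU hx))).2.2)
            rw [Finset.sum_insert hvI] at h7
            linarith) h5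
          have h8 : ((a - 1 : ℕ) : ℝ) = a - 1 := by
            have := h.ha
            rw [Nat.cast_sub (by omega), Nat.cast_one]
          rw [h8] at h6
          exact h6
      have hU := hUb U (Finset.Subset.refl _)
      calc ∑ u ∈ (insert v K ∪ com G (insert v K))ᶜ, q u ≤ ∑ u ∈ (K ∪ com G K)ᶜ ∪ U, q u :=
            Finset.sum_le_sum_of_subset_of_nonneg hsub fun u _ _ => h.nonneg u
        _ = ∑ u ∈ (K ∪ com G K)ᶜ, q u + ∑ u ∈ U, q u := Finset.sum_union hdis
        _ ≤ (a - 1) * ((1 - q v) + g) := by linarith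

theorem Bad.elim {G : SimpleGraph V} {q : V → ℝ} {a b : ℕ} (h : Bad G q a b)
    (hω : G.CliqueFree (a + b - 1)) : False := by
  classical
  have ha2 : (2 : ℝ) ≤ a := by exact_mod_cast h.ha
  have hab : (a : ℝ) ≤ b := by exact_mod_cast h.hab
  have haN := h.ha
  have habN := h.hab
  have hbig := h.big
  obtain ⟨K, hK, -, -⟩ := h.greedy b le_rfl
  -- a clique of maximum size
  obtain ⟨C, hC, hCmax⟩ := Finset.exists_max_image
    (Finset.univ.filter fun s : Finset V => G.IsClique (s : Set V)) Finset.card
    ⟨K, Finset.mem_filter.2 ⟨Finset.mem_univ _, hK.isClique⟩⟩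
  have hCc : G.IsClique (C : Set V) := (Finset.mem_filter.1 hC).2
  have hbC : b ≤ C.card := by
    have := hCmax K (Finset.mem_filter.2 ⟨Finset.mem_univ _, hK.isClique⟩)
    rwa [hK.card_eq] at this
  have hCm : C.card ≤ a + b - 2 := by
    by_contra hcon
    have h1 : a + b - 1 ≤ C.card := by omega
    exact hω.mono h1 C ⟨hCc, rfl⟩
  have hmiss : ∀ x ∉ C, ∃ c ∈ C, ¬ G.Adj x c := by
    intro x hx
    by_contra hcon
    push Not at hcon
    have h1 : G.IsClique ((insert x C : Finset V) : Set V) := by
      rw [Finset.coe_insert]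
      exact hCc.insert fun c hc _ => hcon c hc
    have h2 := hCmax (insert x C) (Finset.mem_filter.2 ⟨Finset.mem_univ _, h1⟩)
    rw [Finset.card_insert_of_notMem hx] at h2
    omega
  have hCne : C.Nonempty := by
    rw [← Finset.card_pos]
    omega
  obtain ⟨cs, hcs, hmin⟩ := Finset.exists_min_image C q hCne
  obtain ⟨D, hcD, hDC, hDcard⟩ := Finset.exists_subsuperset_card_eq
    (Finset.singleton_subset_iff.2 hcs) (by rw [Finset.card_singleton]; omega) hbC
  have hcsD : cs ∈ D := hcD (Finset.mem_singleton_self _)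
  obtain ⟨K2, hcK, hKD, hK2card⟩ := Finset.exists_subsuperset_card_eq (n := a - 1)
    (Finset.singleton_subset_iff.2 hcsD) (by rw [Finset.card_singleton]; omega)
    (by rw [hDcard]; omega)
  have hcsK : cs ∈ K2 := hcK (Finset.mem_singleton_self _)
  have hDclique : G.IsNClique b D := ⟨hCc.subset (by exact_mod_cast hDC), hDcard⟩
  have hkey : ∀ x ∉ C, ∃ d ∈ D, ¬ G.Adj x d := by
    intro x hx
    by_contra hcon
    push Not at hcon
    obtain ⟨c1, hc1, hxc1⟩ := hmiss x hx
    have hxK : x ∉ K2 := fun h' => hx (hDC (hKD h'))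
    have h1 : G.IsNClique a (insert x K2) := by
      have : G.IsNClique (a - 1) K2 :=
        ⟨hCc.subset (by exact_mod_cast hKD.trans hDC), hK2card⟩
      have h2 := this.insert (a := x) (fun d hd => hcon d (hKD hd))
      have h3 : a - 1 + 1 = a := by omega
      rwa [h3] at h2
    have h2 : ∑ v, q v - (b - 1) ≤ ∑ v ∈ insert x K2, q v := by
      by_contra hlt
      rw [not_le] at hlt
      exact clique_not_colorable G _ a (by omega) h1 (h.wa _ hlt)
    have h3 : ∑ v ∈ K2, q v ≤ (a - 2) + q cs := by
      rw [← Finset.add_sum_erase K2 q hcsK]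
      have h4 : ∑ v ∈ K2.erase cs, q v ≤ ∑ v ∈ K2.erase cs, (1 : ℝ) :=
        Finset.sum_le_sum fun v _ => h.le_one v
      rw [Finset.sum_const, nsmul_eq_mul, mul_one, Finset.card_erase_of_mem hcsK, hK2card] at h4
      have h5 : ((a - 1 - 1 : ℕ) : ℝ) = a - 2 := by
        rw [Nat.cast_sub (by omega), Nat.cast_sub (by omega), Nat.cast_one]
        ring
      rw [h5] at h4
      linarith
    rw [Finset.sum_insert hxK] at h2
    have hxc : x ≠ c1 := fun h' => hx (h' ▸ hc1)
    have h4 := h.ind {x, c1} (indep_insert (by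
      rw [Finset.coe_singleton]
      exact Set.pairwise_singleton _ _) (by
      intro y hy
      rw [Finset.mem_singleton] at hy
      rw [hy]
      exact hxc1))
    rw [Finset.sum_pair hxc] at h4
    have h5 := hmin c1 hc1
    linarith
  -- the colouring
  have hDn := clique_not_colorable G D b (by omega) hDclique
  obtain ⟨ψ0⟩ := h.col_compl D hDn
  obtain ⟨n, rfl⟩ : ∃ n, a = n + 2 := ⟨a - 2, by omega⟩
  let ψ : (G.induce ((Dᶜ : Finset V) : Set V)).Coloring (Fin (n + 1)) := ψ0
  let T : Finset (Fin (n + 1)) := (C \ D).attach.image fun x =>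
    ψ ⟨x.1, Finset.mem_coe.2 (Finset.mem_compl.2 (Finset.mem_sdiff.1 x.2).2)⟩
  have hT : T.card < Fintype.card (Fin (n + 1)) := by
    have h1 : T.card ≤ (C \ D).card := by
      refine Finset.card_image_le.trans ?_
      rw [Finset.card_attach]
    have h2 : (C \ D).card = C.card - D.card := Finset.card_sdiff_of_subset hDC
    rw [Fintype.card_fin]
    omega
  obtain ⟨c0, hc0⟩ : ∃ c0, c0 ∉ T := by
    by_contra hcon
    push Not at hcon
    have : T = Finset.univ := Finset.eq_univ_iff_forall.2 hcon
    rw [this, Finset.card_univ] at hT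
    exact lt_irrefl _ hT
  have hcolG : G.Colorable (n + b) := by
    refine colorable_of_class G D n b hDcard ψ c0 ?_
    intro x hx hxc
    apply hkey
    intro hxC
    apply hc0
    rw [Finset.mem_image]
    exact ⟨⟨x, Finset.mem_sdiff.2 ⟨hxC, Finset.mem_compl.1 hx⟩⟩, Finset.mem_attach _ _, hxc⟩
  have hcolU : (G.induce ((Finset.univ : Finset V) : Set V)).Colorable (n + b) :=
    Colorable.of_hom (SimpleGraph.Embedding.induce _).toHom hcolG
  have h1 := weight_le G q Finset.univ (n + b) 1 (fun I _ hI => h.ind I hI) hcolU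
  push_cast at h1 hbig
  linarith

/-- The Erdos-Lovasz Tihany conjecture with the fractional chromatic number in the hypothesis. -/
theorem split_frac (G : SimpleGraph V) (a b : ℕ) (ha : 2 ≤ a) (hb : 2 ≤ b) (q : V → ℝ)
    (hq0 : ∀ v, 0 ≤ q v)
    (hq : ∀ I : Finset V, G.IsIndepSet (I : Set V) → ∑ v ∈ I, q v ≤ 1)
    (hX : (a : ℝ) + b - 2 < ∑ v, q v) (hω : G.CliqueFree (a + b - 1)) : Split G a b := by
  by_contra hns
  rcases le_total a b with hab | hab
  · exact (Bad.mk ha hab hq0 hq hX hns).elim hω
  · have h1 : (b : ℝ) + a - 2 < ∑ v, q v := by linarith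
    have h2 : G.CliqueFree (b + a - 1) := by rwa [add_comm b a]
    exact (Bad.mk hb hab hq0 hq h1 (fun h => hns h.symm)).elim h2

end Pool.Agent.H69.ELT
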